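import Pool.Agent.Helper31.BC.Stmts
import Pool.Agent.Helper41.MR.CORE
import Pool.Agent.Helper33.MR.CI
import Pool.Agent.Helper59.MR.P
import Pool.Agent.Helper50.MR.N
import Pool.Agent.Helper91.MR.CP

set_option autoImplicit false

/-! Module COR: cliques of transversals against colourings. -/

namespace Pool.Agent.Helper31.BC

open Pool.Agent.Helper38.MR
open Pool.Agent.Helper41.MR (St exists_St out_eq gv)

theorem cor_core (hP : specP) (hN : specN) (hCP : specCP) (hCN : specCN) (hCI : specCI) :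
    ST_COR := by
  classical
  intro s hs E C D θ hmono hD hpos hneg
  obtain ⟨Cs, Ds, EP, EN, h⟩ := exists_St (k := 4 * s ^ 2 + 1) (q := 8 * s) (l := 4 * s ^ 2) hP hN
    hCP hCN hs D hD C hmono
  by_contra hcon
  rw [not_le] at hcon
  have hs0 : 0 < s := by omega
  -- a good transversal
  have hσ : ∃ σ, σ ∉ EP := by
    by_contra hall
    have huniv : EP = Finset.univ := by
      ext σ
      simp only [Finset.mem_univ, iff_true]
      by_contra h1
      exact hall ⟨σ, h1⟩
    have hc := h.cEP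
    rw [huniv, Finset.card_univ, Fintype.card_fun, Fintype.card_fin, Fintype.card_fin] at hc
    have hqk : 0 < (8 * s) ^ (4 * s ^ 2 + 1) := by positivity
    have h1 : (8 * s) ^ s ≤ C.length * (4 * s) ^ s := by
      have h2 : (8 * s) ^ s * (8 * s) ^ (4 * s ^ 2 + 1) ≤
          (C.length * (4 * s) ^ s) * (8 * s) ^ (4 * s ^ 2 + 1) := by
        calc (8 * s) ^ s * (8 * s) ^ (4 * s ^ 2 + 1) = (8 * s) ^ (4 * s ^ 2 + 1) * (8 * s) ^ s := by
              ring
          _ ≤ _ := hc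
          _ = _ := by ring
      exact Nat.le_of_mul_le_mul_right h2 hqk
    have h3 : (8 * s) ^ s = 2 ^ s * (4 * s) ^ s := by
      rw [← Nat.mul_pow]; ring_nf
    rw [h3] at h1
    have h4 : 2 ^ s ≤ C.length := Nat.le_of_mul_le_mul_right h1 (by positivity)
    omega
  obtain ⟨σ, hσ⟩ := hσ
  have hK := hpos σ
  rw [out_eq] at hK
  have h1 := (h.pos σ hσ (C.length - 1)).2.trans hK
  obtain ⟨A, hAs, hAx, hAv⟩ := h.sD (C.length - 1) (clq (trv σ))
  have h2 : Ds (C.length - 1) (clq A) ≤ θ := hAv.trans h1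
  have hsub : (Finset.univ.filter fun χ : Fin ((4 * s ^ 2 + 1) * (8 * s)) → Fin (4 * s ^ 2) =>
      clq A ≤ mpt χ) ⊆ EN := by
    intro χ hχ
    have hχ' := (Finset.mem_filter.1 hχ).2
    by_contra hn
    have h3 := (h.neg χ hn (C.length - 1)).2
    have h4 := hneg χ
    rw [out_eq] at h4
    have h5 := h.aD (C.length - 1) hχ'
    linarith
  have hcard := Finset.card_le_card hsub
  have hCI' := hCI ((4 * s ^ 2 + 1) * (8 * s)) (4 * s ^ 2) A (by nlinarith)
  have hCI2 : (4 * s ^ 2) ^ ((4 * s ^ 2 + 1) * (8 * s)) ≤ 2 * EN.card := by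
    refine hCI'.trans ?_
    apply Nat.mul_le_mul_left
    refine le_trans (le_of_eq ?_) hcard
    apply congrArg Finset.card
    ext χ
    simp
  have hcN := h.cEN
  set X := (4 * s ^ 2) ^ ((4 * s ^ 2 + 1) * (8 * s)) with hX
  have hXpos : 0 < X := by rw [hX]; positivity
  have h6 : (4 * s ^ 2) ^ s ≤ 2 * C.length * (2 * s ^ 2) ^ s := by
    have h7 : (4 * s ^ 2) ^ s * X ≤ (2 * C.length * (2 * s ^ 2) ^ s) * X := by
      calc (4 * s ^ 2) ^ s * X ≤ (4 * s ^ 2) ^ s * (2 * EN.card) := Nat.mul_le_mul_left _ hCI2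
        _ = 2 * (EN.card * (4 * s ^ 2) ^ s) := by ring
        _ ≤ 2 * (C.length * ((2 * s ^ 2) ^ s * X)) := Nat.mul_le_mul_left _ hcN
        _ = _ := by ring
    exact Nat.le_of_mul_le_mul_right h7 hXpos
  have h8 : (4 * s ^ 2) ^ s = 2 ^ s * (2 * s ^ 2) ^ s := by
    rw [← Nat.mul_pow]; ring_nf
  rw [h8] at h6
  have h9 : 2 ^ s ≤ 2 * C.length := Nat.le_of_mul_le_mul_right h6 (by positivity)
  omega

theorem st_COR : ST_COR :=
  cor_core P Pool.Agent.Helper50.MR.N Pool.Agent.Helper91.MR.CP Pool.Agent.Helper91.MR.CN CI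

end Pool.Agent.Helper31.BC
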