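import Pool.Agent.Helper31.BC.Stmts

set_option autoImplicit false

/-! Module EXTL: composition of extensions. -/

namespace Pool.Agent.Helper31.BC

open Pool.Agent.Helper38.MR (Edge Graph clq mpt Gate Simple out trv)

theorem st_EXTL : ST_EXTL := by
  intro m
  refine ⟨?_, ?_⟩
  · intro 𝓕 𝓖 N h
    induction h with
    | refl => exact subset_rfl
    | step _ _ _ _ ih => exact ih.trans (Set.subset_insert _ _)
  · intro 𝓕 𝓖 𝓗 N N' h h'
    induction h' with
    | refl => exact h
    | step _ h1 h2 hG ih => exact Ext.step ih h1 h2 hG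

end Pool.Agent.Helper31.BC
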