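import Pool.Agent.Helper31.BC.Stmts

set_option autoImplicit false

/-! Module NOT: no short tours. -/

namespace Pool.Agent.Helper31.BC

open Pool.Agent.Helper52.Grid
open Pool.Agent.Helper68.LP (pert dbl ucost scale Costs)

theorem not_box {h v : ℕ → ℕ → ℕ} {N : ℕ} (hB : Box h v N) : Box h v (2 * N) :=
  ⟨hB.hx, hB.hy, hB.vx, hB.vy, fun x y hh => by have := hB.hN x y hh; omega,
    fun x y hh => by have := hB.vN x y hh; omega⟩

theorem st_NOT : ST_NOT := by
  intro h v N W L hB hc hL hmem hn hW hno σ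
  have key := Pool.Agent.Helper68.LP.p_pert (not_box hB) hc L hL hmem hn W hW
  by_contra hcon
  rw [not_lt] at hcon
  exact hno (key.2 ⟨σ, hcon⟩)

end Pool.Agent.Helper31.BC
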