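import Pool.Agent.Helper31.BC.Stmts
import Pool.Agent.Helper52.Grid.Reduce

set_option autoImplicit false

/-! Module SND: soundness. -/

namespace Pool.Agent.Helper31.BC

open Pool.Agent.Helper52.Grid

theorem st_SND : ST_SND := by
  intro φ M hφ hT
  obtain ⟨T, hT⟩ := hT
  have h3 : 3 ≤ T.length := by
    have h1 : [((1 : ℕ), (3 : ℕ)), (2, 3), (3, 3)] ⊆ T := by
      intro a ha
      rw [hT.mem]
      left
      simp only [List.mem_cons, List.not_mem_nil, or_false] at ha
      rcases ha with rfl | rfl | rfl <;> simp [hC, Pool.Agent.Helper52.Grid.hT]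
    have h2 : ([((1 : ℕ), (3 : ℕ)), (2, 3), (3, 3)] : List Pt).Nodup := by decide
    exact (List.subperm_of_subset h2 h1).length_le
  obtain ⟨hU, vU, hUse, -⟩ := Pool.Agent.Helper17.Etsp.s_use _ _ _ T
    (Pool.Agent.Helper99.Grid.box (subs φ) M) hT h3
  obtain ⟨a, ha, -⟩ := sound' φ M hU vU hφ hUse
  exact ⟨a, ha⟩

end Pool.Agent.Helper31.BC
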